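import Pool.Agent.H73.KG.Stmts2
import Pool.Agent.H84.KlsClass

/-!
# KG, module KRE: from the bound for Lipschitz functions to the hyperplane inequality
-/

set_option autoImplicit false
set_option linter.unusedSectionVars false
set_option linter.unusedVariables false
set_option linter.style.haveILetI false

open MeasureTheory Measure Set Filter Topology
open scoped ENNReal NNReal Pointwise

namespace Pool.Agent.H73.KG

open Pool.Agent.H84 Pool.H71.Bdry

variable {E : Type} [NormedAddCommGroup E] [InnerProductSpace ℝ E]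
    [FiniteDimensional ℝ E] [MeasurableSpace E] [BorelSpace E]

theorem KRE_mono {K : Set E} {Λ Λ' : ℝ} (h : PL K Λ) (hle : Λ ≤ Λ') : PL K Λ' := by
  intro g hg M hM hx
  obtain ⟨c, hc⟩ := h g hg M hM hx
  refine ⟨c, hc.trans ?_⟩
  have h1 : 0 ≤ volume.real K := measureReal_nonneg
  gcongr

theorem KRE_smul {K : Set E} {Λ r : ℝ} (h : PL K Λ) (hr : 0 < r) : PL (r • K) (r * Λ) := by
  intro g hg M hM hx
  have hg' : ContDiff ℝ 1 (fun x => g (r • x)) := hg.comp (contDiff_const_smul r)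
  have hd : ∀ x ∈ K, ‖fderiv ℝ (fun x => g (r • x)) x‖ ≤ r * M := by
    intro x hxK
    rw [fderiv_comp_smul, norm_smul, Real.norm_of_nonneg hr.le]
    exact mul_le_mul_of_nonneg_left (hx _ (Set.smul_mem_smul_set hxK)) hr.le
  obtain ⟨c, hc⟩ := h _ hg' (r * M) (by positivity) hd
  refine ⟨c, ?_⟩
  rw [volume_real_smul K hr, setIntegral_smul_set K hr]
  have h0 : 0 ≤ r ^ Module.finrank ℝ E := by positivity
  calc r ^ Module.finrank ℝ E * ∫ x in K, |g (r • x) - c|
      ≤ r ^ Module.finrank ℝ E * (Λ * (r * M) * volume.real K) := by gcongr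
    _ = _ := by ring

/-- Invariance under linear isometries. -/
theorem KRE_map {F : Type} [NormedAddCommGroup F] [InnerProductSpace ℝ F]
    [FiniteDimensional ℝ F] [MeasurableSpace F] [BorelSpace F] (φ : E ≃ₗᵢ[ℝ] F) {K : Set E}
    {Λ : ℝ} (h : PL K Λ) : PL (φ '' K) Λ := by
  intro g hg M hM hx
  have hmp : MeasurePreserving φ := φ.measurePreserving
  have hme : MeasurableEmbedding φ := φ.toHomeomorph.measurableEmbedding
  have hint : ∀ G : F → ℝ, ∫ x in φ '' K, G x = ∫ x in K, G (φ x) := fun G =>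
    hmp.setIntegral_image_emb hme G K
  have hv : volume.real (φ '' K) = volume.real K := by
    rw [Measure.real, Measure.real, ← hmp.measure_preimage_emb hme,
      preimage_image_eq K φ.injective]
  have hg' : ContDiff ℝ 1 (fun x => g (φ x)) := hg.comp φ.contDiff
  have hfd : ∀ x, ‖fderiv ℝ (fun x => g (φ x)) x‖ = ‖fderiv ℝ g (φ x)‖ := by
    intro x
    have h1 : fderiv ℝ (fun x => g (φ x)) x
        = (fderiv ℝ g (φ x)).comp (φ : E →L[ℝ] F) := by
      have hd : DifferentiableAt ℝ g (φ x) := (hg.differentiable (by simp)).differentiableAt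
      have := (hd.hasFDerivAt.comp x (φ : E →L[ℝ] F).hasFDerivAt).fderiv
      exact this
    rw [h1]
    exact (fderiv ℝ g (φ x)).opNorm_comp_linearIsometryEquiv φ
  obtain ⟨c, hc⟩ := h _ hg' M hM (fun x hxK => by
    rw [hfd]
    exact hx _ (mem_image_of_mem φ hxK))
  refine ⟨c, ?_⟩
  rw [hint, hv]
  exact hc

section Fin

variable {n : ℕ}

/-- The isoperimetric inequality on a slightly shrunk body. -/
theorem KRE_machine_aux {Ω K K' S : Set (EuclideanSpace ℝ (Fin (n + 1)))} {R Λ ρ P : ℝ} (hΩ : IsOpen Ω)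
    (hK : CB K R) (hK' : CB K' R) (hKK : K' ⊆ K) (hρ : 0 < ρ)
    (hball : ∀ x ∈ K, Metric.closedBall x ρ ⊆ Ω) (hS : MeasurableSet S)
    (hSb : Bornology.IsBounded S) (hP : μHE[n] (Ω ∩ frontier S) = ENNReal.ofReal P) (hP0 : 0 ≤ P)
    (hΛ : 0 < Λ) (hPL : PL K' Λ) (b : ℝ)
    (h1 : b ≤ volume.real (K' ∩ S)) (h2 : b ≤ volume.real (K' \ S)) :
    2 * b ≤ 16 * Λ * P + volume.real K' / 4 := by
  refine le_of_forall_pos_le_add fun ε hε => ?_
  obtain ⟨η, hη2, hη0, hηs, hη1, hηε⟩ := exists_bump hK hS ρ hρ (ε := ε / 4) (by positivity)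
  have hηc : HasCompactSupport η :=
    (isCompact_closedBall (0 : EuclideanSpace ℝ (Fin (n + 1))) ρ).of_isClosed_subset (isClosed_tsupport η) hηs
  have hηi : Integrable η := hη2.continuous.integrable_of_hasCompactSupport hηc
  have hη1' : ContDiff ℝ 1 η := hη2.of_le (by norm_num)
  set u := moll S η with hu
  have huC : ContDiff ℝ 1 u := moll_contDiff S hS η hη1' hηc
  obtain ⟨L, hL⟩ := moll_fderiv_lip hS hSb hη2 hηc
  have hu0 := moll_nonneg S hη0
  have hu1 := moll_le_one S hη0 hηi hη1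
  set f : EuclideanSpace ℝ (Fin (n + 1)) → ℝ := fun x => 2 * u x - 1 with hf
  have hfC : ContDiff ℝ 1 f := (contDiff_const.mul huC).sub contDiff_const
  have hfd : ∀ x, fderiv ℝ f x = (2:ℝ) • fderiv ℝ u x := by
    intro x
    have hd : DifferentiableAt ℝ u x := (huC.differentiable (by simp)).differentiableAt
    have := ((hd.hasFDerivAt.const_mul (2:ℝ)).sub_const (1:ℝ)).fderiv
    simpa using this
  have hfL : ∀ x z, ‖fderiv ℝ f x - fderiv ℝ f z‖ ≤ (2 * L) * ‖x - z‖ := by
    intro x z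
    rw [hfd, hfd, ← smul_sub, norm_smul, mul_assoc]
    have := hL.dist_le_mul x z
    rw [dist_eq_norm, dist_eq_norm] at this
    rw [Real.norm_of_nonneg (by norm_num : (0:ℝ) ≤ 2)]
    gcongr
  have hf1 : ∀ x ∈ K, |f x| ≤ 1 := by
    intro x _
    rw [hf, abs_le]
    have := hu0 x
    have := hu1 x
    constructor <;> simp only <;> linarith
  obtain ⟨g, hgC, hgd, hgi⟩ := smoothing hK hfC hfL hf1 (t := 16 * Λ ^ 2) (by positivity)
    (ε := ε / 4) (by positivity)
  have hsq : Real.sqrt (16 * Λ ^ 2) = 4 * Λ := by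
    rw [show 16 * Λ ^ 2 = (4 * Λ) ^ 2 by ring]
    exact Real.sqrt_sq (by positivity)
  rw [hsq] at hgd hgi
  haveI : IsFiniteMeasure (volume.restrict K) := ⟨by simpa using hK.lt_top⟩
  haveI : IsFiniteMeasure (volume.restrict K') := ⟨by simpa using hK'.lt_top⟩
  -- the gradient integral
  have hgrad : ∫ x in K, ‖fderiv ℝ f x‖ ≤ 2 * P := by
    have h3 : ∫ x in K, ‖fderiv ℝ f x‖ = 2 * ∫ x in K, ‖fderiv ℝ u x‖ := by
      rw [← integral_const_mul]
      congr 1
      ext x
      rw [hfd, norm_smul, Real.norm_of_nonneg (by norm_num : (0:ℝ) ≤ 2)]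
    rw [h3]
    refine mul_le_mul_of_nonneg_left ?_ (by norm_num)
    have h4 := moll_lintegral_le S Ω K hS hΩ hK.meas η hη0 hη1' ρ hηs hη1
      (by rw [hP]; exact ENNReal.ofReal_ne_top) hball
    rw [hP] at h4
    rw [integral_eq_lintegral_of_nonneg_ae (Eventually.of_forall fun x => norm_nonneg _)
      (huC.continuous_fderiv (by simp)).norm.aestronglyMeasurable]
    exact ENNReal.toReal_le_of_le_ofReal hP0 h4
  -- integrability
  have hfi : IntegrableOn f K' := by
    obtain ⟨B, hB⟩ := hK'.bdd_of_cont hfC.continuous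
    refine Measure.integrableOn_of_bounded (M := B) hK'.lt_top.ne
      hfC.continuous.aestronglyMeasurable ?_
    exact (ae_restrict_iff' hK'.meas).2 (Eventually.of_forall fun x hx => hB x hx)
  have hgi' : IntegrableOn g K' := by
    obtain ⟨B, hB⟩ := hK'.bdd_of_cont hgC.continuous
    refine Measure.integrableOn_of_bounded (M := B) hK'.lt_top.ne
      hgC.continuous.aestronglyMeasurable ?_
    exact (ae_restrict_iff' hK'.meas).2 (Eventually.of_forall fun x hx => hB x hx)
  have hfiK : IntegrableOn f K := by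
    obtain ⟨B, hB⟩ := hK.bdd_of_cont hfC.continuous
    refine Measure.integrableOn_of_bounded (M := B) hK.lt_top.ne
      hfC.continuous.aestronglyMeasurable ?_
    exact (ae_restrict_iff' hK.meas).2 (Eventually.of_forall fun x hx => hB x hx)
  have hgiK : IntegrableOn g K := by
    obtain ⟨B, hB⟩ := hK.bdd_of_cont hgC.continuous
    refine Measure.integrableOn_of_bounded (M := B) hK.lt_top.ne
      hgC.continuous.aestronglyMeasurable ?_
    exact (ae_restrict_iff' hK.meas).2 (Eventually.of_forall fun x hx => hB x hx)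
  have huiK : IntegrableOn u K := by
    obtain ⟨B, hB⟩ := hK.bdd_of_cont huC.continuous
    refine Measure.integrableOn_of_bounded (M := B) hK.lt_top.ne
      huC.continuous.aestronglyMeasurable ?_
    exact (ae_restrict_iff' hK.meas).2 (Eventually.of_forall fun x hx => hB x hx)
  set σ : EuclideanSpace ℝ (Fin (n + 1)) → ℝ := S.indicator (fun _ => (1:ℝ)) with hσ
  have hσi : ∀ T : Set (EuclideanSpace ℝ (Fin (n + 1))), volume T ≠ ⊤ → IntegrableOn σ T := by
    intro T hT
    haveI : IsFiniteMeasure (volume.restrict T) := ⟨by simpa using hT.lt_top⟩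
    exact (integrableOn_const hT).indicator hS
  obtain ⟨c, hc⟩ := hPL g hgC (1 / (4 * Λ)) (by positivity) (fun x hx => hgd x (hKK hx))
  have hcc : Λ * (1 / (4 * Λ)) * volume.real K' = volume.real K' / 4 := by
    field_simp
  rw [hcc] at hc
  have hlow := sign_far hK' hS c b h1 h2
  -- triangle inequality
  have hI1 : IntegrableOn (fun x => |(2 * σ x - 1) - f x|) K' :=
    ((((hσi K' hK'.lt_top.ne).const_mul 2).sub (integrableOn_const hK'.lt_top.ne)).sub hfi).abs
  have hI2 : IntegrableOn (fun x => |f x - g x|) K' := (hfi.sub hgi').abs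
  have hI3 : IntegrableOn (fun x => |g x - c|) K' :=
    (hgi'.sub (integrableOn_const hK'.lt_top.ne)).abs
  have hI12 : IntegrableOn (fun x => |(2 * σ x - 1) - f x| + |f x - g x|) K' := hI1.add hI2
  have htri : ∫ x in K', |(2 * σ x - 1) - c|
      ≤ (∫ x in K', |(2 * σ x - 1) - f x|) + (∫ x in K', |f x - g x|) + ∫ x in K', |g x - c| := by
    rw [← integral_add hI1 hI2, ← integral_add hI12 hI3]
    refine integral_mono ?_ (hI12.add hI3) ?_
    · exact ((((hσi K' hK'.lt_top.ne).const_mul 2).sub (integrableOn_const hK'.lt_top.ne)).sub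
        (integrableOn_const hK'.lt_top.ne)).abs
    · intro x
      have e1 := abs_add_three ((2 * σ x - 1) - f x) (f x - g x) (g x - c)
      rw [show (2 * σ x - 1) - f x + (f x - g x) + (g x - c) = (2 * σ x - 1) - c by ring] at e1
      exact e1
  have hsub1 : ∫ x in K', |(2 * σ x - 1) - f x| ≤ ε / 2 := by
    have hJ : IntegrableOn (fun x => |u x - σ x|) K := (huiK.sub (hσi K hK.lt_top.ne)).abs
    calc ∫ x in K', |(2 * σ x - 1) - f x| = ∫ x in K', 2 * |u x - σ x| := by
          congr 1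
          ext x
          rw [hf, ← abs_neg]
          simp only
          rw [show -(2 * σ x - 1 - (2 * u x - 1)) = 2 * (u x - σ x) by ring, abs_mul,
            abs_of_pos (by norm_num : (0:ℝ) < 2)]
      _ ≤ ∫ x in K, 2 * |u x - σ x| := by
          refine setIntegral_mono_set (hJ.const_mul 2) ?_ hKK.eventuallyLE
          exact Eventually.of_forall fun x => by positivity
      _ = 2 * ∫ x in K, |u x - σ x| := integral_const_mul _ _
      _ ≤ 2 * (ε / 4) := by gcongr
      _ = ε / 2 := by ring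
  have hsub2 : ∫ x in K', |f x - g x| ≤ 16 * Λ * P + ε / 4 := by
    calc ∫ x in K', |f x - g x| ≤ ∫ x in K, |f x - g x| := by
          refine setIntegral_mono_set (hfiK.sub hgiK).abs ?_ hKK.eventuallyLE
          exact Eventually.of_forall fun x => by positivity
      _ ≤ 2 * (4 * Λ) * (∫ x in K, ‖fderiv ℝ f x‖) + ε / 4 := hgi
      _ ≤ 2 * (4 * Λ) * (2 * P) + ε / 4 := by gcongr
      _ = _ := by ring
  linarith

/-- **The machine** (coordinates).  If a convex subset `Ω'` of `Ω` with at least three quarters of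
the volume has Poincare constant `Λ²`, then every `S` with half the volume has a boundary in `Ω`
of measure at least `|Ω| / (64 Λ)`. -/
theorem KRE_fin {Ω Ω' S : Set (EuclideanSpace ℝ (Fin (n + 1)))} (hΩo : IsOpen Ω) (hΩc : Convex ℝ Ω)
    (hΩb : Bornology.IsBounded Ω) (h0 : (0:EuclideanSpace ℝ (Fin (n + 1))) ∈ Ω) (hsub : Ω' ⊆ Ω) (hΩ'c : Convex ℝ Ω')
    (hΩ'm : MeasurableSet Ω') {Λ : ℝ} (hΛ : 0 < Λ)
    (hvol : 3 / 4 * volume.real Ω ≤ volume.real Ω') (hPL : PL Ω' Λ)
    (hS : MeasurableSet S) (hSΩ : S ⊆ Ω) (hSv : volume.real S = volume.real Ω / 2) :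
    volume Ω ≤ ENNReal.ofReal (64 * Λ) * μHE[n] (Ω ∩ frontier S) := by
  by_cases hPt : μHE[n] (Ω ∩ frontier S) = ⊤
  · rw [hPt, ENNReal.mul_top (by simp [hΛ])]
    exact le_top
  set P := (μHE[n] (Ω ∩ frontier S)).toReal with hPdef
  have hP : μHE[n] (Ω ∩ frontier S) = ENNReal.ofReal P := (ENNReal.ofReal_toReal hPt).symm
  have hP0 : 0 ≤ P := ENNReal.toReal_nonneg
  have hΩv0 : volume Ω ≠ 0 := (hΩo.measure_pos volume ⟨0, h0⟩).ne'
  have hΩvt : volume Ω ≠ ⊤ := hΩb.measure_lt_top.ne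
  set V := volume.real Ω with hV
  have hV0 : 0 < V := ENNReal.toReal_pos hΩv0 hΩvt
  obtain ⟨R, hR⟩ := hΩb.subset_closedBall 0
  have hRpos : 0 ≤ R := by
    have := hR h0
    simpa using this
  have hΩ'v0 : volume Ω' ≠ 0 := by
    intro h
    have h1 : volume.real Ω' = 0 := by simp [Measure.real, h]
    rw [h1] at hvol
    linarith
  set N := Module.finrank ℝ (EuclideanSpace ℝ (Fin (n + 1))) with hN
  -- estimate for each shrinking factor
  have key : ∀ r : ℝ, 0 < r → r < 1 →
      2 * ((3 / 4 * r ^ N - 1 / 2) * V) ≤ 16 * Λ * P + V / 4 := by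
    intro r hr0 hr1
    obtain ⟨ρ, hρ, hball⟩ := shrink_ball hΩo hΩc h0 hr0 hr1
    have hK : CB (r • Ω) R := by
      refine ⟨hΩc.smul r, (hΩo.smul₀ hr0.ne').measurableSet, ?_, ?_⟩
      · rintro _ ⟨ω, hω, rfl⟩
        have := hR hω
        rw [mem_closedBall_zero_iff] at this ⊢
        simp only [norm_smul, Real.norm_of_nonneg hr0.le]
        nlinarith [norm_nonneg ω]
      · rw [Measure.addHaar_smul]
        simp only [ne_eq, mul_eq_zero, not_or]
        refine ⟨?_, hΩv0⟩
        simp only [ENNReal.ofReal_eq_zero, not_le]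
        positivity
    have hK' : CB (r • Ω') R := by
      refine ⟨hΩ'c.smul r, hΩ'm.const_smul_of_ne_zero hr0.ne', ?_, ?_⟩
      · exact (smul_set_mono hsub).trans hK.sub
      · rw [Measure.addHaar_smul]
        simp only [ne_eq, mul_eq_zero, not_or]
        refine ⟨?_, hΩ'v0⟩
        simp only [ENNReal.ofReal_eq_zero, not_le]
        positivity
    have hPL' : PL (r • Ω') Λ := KRE_mono (KRE_smul hPL hr0) (by nlinarith)
    have hrΩ : r • Ω' ⊆ Ω := by
      refine (smul_set_mono hsub).trans fun x hx => hball x hx ?_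
      exact Metric.mem_closedBall_self hρ.le
    have hK'v : volume.real (r • Ω') = r ^ N * volume.real Ω' := volume_real_smul Ω' hr0
    have hK'lt : volume.real (r • Ω') ≤ V := measureReal_mono hrΩ hΩvt
    have hsum : volume.real (r • Ω') = volume.real (r • Ω' ∩ S) + volume.real ((r • Ω') \ S) :=
      (measureReal_inter_add_sdiff hS (hK'.lt_top.ne)).symm
    have hlow : 3 / 4 * r ^ N * V ≤ volume.real (r • Ω') := by
      rw [hK'v]
      have : 0 ≤ r ^ N := by positivity
      nlinarith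
    have hA : volume.real (r • Ω' ∩ S) ≤ V / 2 := by
      rw [← hSv]
      exact measureReal_mono inter_subset_right (measure_ne_top_of_subset hSΩ hΩvt)
    have hB : volume.real ((r • Ω') \ S) ≤ V / 2 := by
      have h1 : volume.real ((r • Ω') \ S) ≤ volume.real (Ω \ S) :=
        measureReal_mono (sdiff_subset_sdiff_left hrΩ) (measure_ne_top_of_subset sdiff_subset hΩvt)
      have h2 : volume.real (Ω \ S) = V - volume.real S := by
        rw [measureReal_sdiff hSΩ hS]
      rw [h2, hSv] at h1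
      linarith
    have := KRE_machine_aux hΩo hK hK' (smul_set_mono hsub) hρ hball hS (hΩb.subset hSΩ) hP hP0 hΛ
      hPL' ((3 / 4 * r ^ N - 1 / 2) * V) (by nlinarith) (by nlinarith)
    linarith
  -- let r tend to 1
  have hlim : Tendsto (fun r : ℝ => 2 * ((3 / 4 * r ^ N - 1 / 2) * V)) (𝓝[<] 1)
      (𝓝 (2 * ((3 / 4 * 1 ^ N - 1 / 2) * V))) := by
    have : Continuous fun r : ℝ => 2 * ((3 / 4 * r ^ N - 1 / 2) * V) := by fun_prop
    exact (this.tendsto 1).mono_left nhdsWithin_le_nhds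
  have hev : ∀ᶠ r : ℝ in 𝓝[<] 1, 2 * ((3 / 4 * r ^ N - 1 / 2) * V) ≤ 16 * Λ * P + V / 4 := by
    filter_upwards [Ioo_mem_nhdsLT (show (0:ℝ) < 1 by norm_num)] with r hr
    exact key r hr.1 hr.2
  have hfin := le_of_tendsto hlim hev
  rw [one_pow] at hfin
  have hfinal : V ≤ 64 * Λ * P := by linarith
  rw [hP, ← ENNReal.ofReal_mul (by positivity), ← ENNReal.ofReal_toReal hΩvt]
  exact ENNReal.ofReal_le_ofReal hfinal

end Fin

/-- **The machine**, in a Euclidean space of dimension `n + 1`. -/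
theorem KRE_machine {n : ℕ} (hn : Module.finrank ℝ E = n + 1)
    {Ω Ω' S : Set E} (hΩo : IsOpen Ω) (hΩc : Convex ℝ Ω)
    (hΩb : Bornology.IsBounded Ω) (h0 : (0:E) ∈ Ω) (hsub : Ω' ⊆ Ω) (hΩ'c : Convex ℝ Ω')
    (hΩ'm : MeasurableSet Ω') {Λ : ℝ} (hΛ : 0 < Λ)
    (hvol : 3 / 4 * volume.real Ω ≤ volume.real Ω') (hPL : PL Ω' Λ)
    (hS : MeasurableSet S) (hSΩ : S ⊆ Ω) (hSv : volume.real S = volume.real Ω / 2) :
    volume Ω ≤ ENNReal.ofReal (64 * Λ) * μHE[n] (Ω ∩ frontier S) := by
  set φ : E ≃ₗᵢ[ℝ] EuclideanSpace ℝ (Fin (n + 1)) :=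
    ((stdOrthonormalBasis ℝ E).reindex (finCongr hn)).repr with hφ
  have hmp : MeasurePreserving φ := φ.measurePreserving
  have hme : MeasurableEmbedding φ := φ.toHomeomorph.measurableEmbedding
  have hv : ∀ K : Set E, volume (φ '' K) = volume K := fun K => by
    rw [← hmp.measure_preimage_emb hme, preimage_image_eq K φ.injective]
  have hvr : ∀ K : Set E, volume.real (φ '' K) = volume.real K := fun K => by
    rw [Measure.real, Measure.real, hv]
  have hfr : φ '' (Ω ∩ frontier S) = φ '' Ω ∩ frontier (φ '' S) := by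
    rw [image_inter φ.injective]
    congr 1
    exact φ.toHomeomorph.image_frontier S
  have key := KRE_fin (n := n) (Ω := φ '' Ω) (Ω' := φ '' Ω') (S := φ '' S)
    (φ.toHomeomorph.isOpenMap _ hΩo) (hΩc.linear_image φ.toLinearEquiv.toLinearMap)
    (φ.lipschitz.isBounded_image hΩb) ⟨0, h0, map_zero φ⟩ (image_mono hsub)
    (hΩ'c.linear_image φ.toLinearEquiv.toLinearMap) (hme.measurableSet_image.2 hΩ'm) hΛ
    (by rw [hvr, hvr]; exact hvol) (KRE_map φ hPL) (hme.measurableSet_image.2 hS) (image_mono hSΩ)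
    (by rw [hvr, hvr]; exact hSv)
  rw [hv, ← hfr] at key
  have hH : μHE[n] (φ '' (Ω ∩ frontier S)) = μHE[n] (Ω ∩ frontier S) := by
    rw [Pool.H71.Bdry.μHE_apply, Pool.H71.Bdry.μHE_apply]
    congr 1
    exact φ.toIsometryEquiv.isometry.hausdorffMeasure_image (Or.inl (Nat.cast_nonneg n)) _
  rw [hH] at key
  exact key

/-- **Reduction.**  For a symmetric open bounded convex set `Ω` there are a unit vector `a` and
`s > 0` (the largest standard deviation of a linear functional) such that: every convex subset of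
`Ω` with three quarters of the volume and Poincare constant `(c s)²` gives the hyperplane
inequality with constant `7300 c`, for the hyperplane orthogonal to `a`. -/
theorem KRE_reduce {n : ℕ} (hn : Module.finrank ℝ E = n + 1) {Ω : Set E} (hΩo : IsOpen Ω)
    (hΩc : Convex ℝ Ω) (hΩb : Bornology.IsBounded Ω) (hsymm : ∀ x ∈ Ω, -x ∈ Ω)
    (hne : Ω.Nonempty) :
    ∃ a : E, ‖a‖ = 1 ∧ ∃ s : ℝ, 0 < s ∧
      (∀ v : E, ∫ x in Ω, (inner ℝ v x) ^ 2 ≤ s ^ 2 * ‖v‖ ^ 2 * volume.real Ω) ∧
      ∀ (Ω' : Set E) (c : ℝ), 0 < c → Ω' ⊆ Ω → Convex ℝ Ω' → MeasurableSet Ω' →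
        3 / 4 * volume.real Ω ≤ volume.real Ω' → PL Ω' (c * s) →
        ∀ S : Set E, MeasurableSet S → S ⊆ Ω → volume S = volume Ω / 2 →
          μH[(n:ℝ)] {x | x ∈ Ω ∧ inner ℝ a x = (0:ℝ)}
            ≤ ENNReal.ofReal (7300 * c) * μH[(n:ℝ)] (Ω ∩ frontier S) := by
  have h0 : (0:E) ∈ Ω := by
    obtain ⟨x, hx⟩ := hne
    have := hΩc hx (hsymm x hx) (a := 1/2) (b := 1/2) (by norm_num) (by norm_num) (by norm_num)
    simpa using this
  haveI : Nontrivial E := Module.nontrivial_of_finrank_pos (R := ℝ) (by omega)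
  obtain ⟨a, ha, s, hs, hsa, hsv⟩ := exists_max_dir hΩo h0 hΩb
  refine ⟨a, ha, s, hs, hsv, ?_⟩
  intro Ω' c hc hsub hΩ'c hΩ'm hvol hPL S hS hSΩ hSv
  have hΩv0 : volume Ω ≠ 0 := (hΩo.measure_pos volume ⟨0, h0⟩).ne'
  have hΩvt : volume Ω ≠ ⊤ := hΩb.measure_lt_top.ne
  set V := volume.real Ω with hV
  have hV0 : 0 < V := ENNReal.toReal_pos hΩv0 hΩvt
  have hVe : volume Ω = ENNReal.ofReal V := (ENNReal.ofReal_toReal hΩvt).symm
  have hSv' : volume.real S = V / 2 := by
    rw [Measure.real, hSv, ENNReal.toReal_div, hV, Measure.real]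
    norm_num
  have h1 := KRE_machine hn hΩo hΩc hΩb h0 hsub hΩ'c hΩ'm (Λ := c * s) (by positivity) hvol hPL
    hS hSΩ hSv'
  have h2 := section_bound_gen hn hΩo hΩc hΩb hsymm a ha
  have hI : ∫⁻ x in Ω, ENNReal.ofReal ((inner ℝ a x) ^ 2) = ENNReal.ofReal (s ^ 2 * V) := by
    rw [← hsa, ofReal_integral_eq_lintegral_ofReal _ (Eventually.of_forall fun x => by positivity)]
    obtain ⟨R, hR⟩ := hΩb.subset_closedBall 0
    have hxR : ∀ x ∈ Ω, ‖x‖ ≤ R := fun x hx => by simpa using hR hx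
    refine Measure.integrableOn_of_bounded (M := (‖a‖ * R) ^ 2) hΩvt (by fun_prop) ?_
    refine (ae_restrict_iff' hΩo.measurableSet).2 (Eventually.of_forall fun x hx => ?_)
    rw [norm_pow]
    refine pow_le_pow_left₀ (norm_nonneg _) ?_ 2
    exact (norm_inner_le_norm a x).trans (by gcongr; exact hxR x hx)
  rw [hI, hVe, ← ENNReal.ofReal_pow hV0.le, ← ENNReal.ofReal_mul (by positivity)] at h2
  set M := μHE[n] {x | x ∈ Ω ∧ inner ℝ a x = (0:ℝ)} with hM
  have hMt : M ≠ ⊤ := by
    intro h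
    rw [h, ENNReal.top_pow (by norm_num), ENNReal.top_mul] at h2
    · exact absurd (top_le_iff.1 h2) ENNReal.ofReal_ne_top
    · simp only [ne_eq, ENNReal.ofReal_eq_zero, not_le]
      positivity
  have hMr : M = ENNReal.ofReal M.toReal := (ENNReal.ofReal_toReal hMt).symm
  have hMle : M ≤ ENNReal.ofReal (64 * Real.sqrt Real.pi * V / s) := by
    rw [hMr, ← ENNReal.ofReal_pow ENNReal.toReal_nonneg, ← ENNReal.ofReal_mul (by positivity),
      ENNReal.ofReal_le_ofReal_iff (by positivity)] at h2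
    rw [hMr]
    refine ENNReal.ofReal_le_ofReal ?_
    refine abs_le_of_sq_le_sq' ?_ (by positivity) |>.2
    rw [div_pow, mul_pow, mul_pow, Real.sq_sqrt Real.pi_pos.le, le_div_iff₀ (by positivity)]
    have h3 : V * (M.toReal ^ 2 * s ^ 2) ≤ V * (64 ^ 2 * Real.pi * V ^ 2) := by nlinarith
    exact le_of_mul_le_mul_left h3 hV0
  have hpi : 64 * Real.sqrt Real.pi * 64 ≤ 7300 := by
    have h3 : Real.sqrt Real.pi ≤ 1.78 := by
      rw [Real.sqrt_le_left (by norm_num)]
      have := Real.pi_lt_d4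
      norm_num
      linarith
    linarith
  have h4 : M ≤ ENNReal.ofReal (7300 * c) * μHE[n] (Ω ∩ frontier S) := by
    calc M ≤ ENNReal.ofReal (64 * Real.sqrt Real.pi * V / s) := hMle
      _ = ENNReal.ofReal (64 * Real.sqrt Real.pi / s) * volume Ω := by
          rw [hVe, ← ENNReal.ofReal_mul (by positivity)]
          congr 1
          ring
      _ ≤ ENNReal.ofReal (64 * Real.sqrt Real.pi / s) *
          (ENNReal.ofReal (64 * (c * s)) * μHE[n] (Ω ∩ frontier S)) := by gcongr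
      _ = ENNReal.ofReal (64 * Real.sqrt Real.pi * 64 * c) * μHE[n] (Ω ∩ frontier S) := by
          rw [← mul_assoc, ← ENNReal.ofReal_mul (by positivity)]
          congr 2
          field_simp
      _ ≤ _ := by gcongr
  rw [hM, Pool.H71.Bdry.μHE_apply, Pool.H71.Bdry.μHE_apply] at h4
  have hκ : (Pool.H71.Bdry.κ n : ℝ≥0∞) ≠ 0 := by
    exact_mod_cast Pool.H71.Bdry.κ_ne_zero n
  have hκt : (Pool.H71.Bdry.κ n : ℝ≥0∞) ≠ ⊤ := ENNReal.coe_ne_top
  have h5 : (Pool.H71.Bdry.κ n : ℝ≥0∞) * μH[(n:ℝ)] {x | x ∈ Ω ∧ inner ℝ a x = (0:ℝ)}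
      ≤ (Pool.H71.Bdry.κ n : ℝ≥0∞) * (ENNReal.ofReal (7300 * c) * μH[(n:ℝ)] (Ω ∩ frontier S)) := by
    calc _ ≤ _ := h4
      _ = _ := by ring
  exact (ENNReal.mul_le_mul_iff_right hκ hκt).1 h5

theorem kre_thm (E : Type) [NormedAddCommGroup E] [InnerProductSpace ℝ E]
    [FiniteDimensional ℝ E] [MeasurableSpace E] [BorelSpace E] : KREStmt E := by
  intro n hn Ω hΩo hΩc hΩb hsymm hne
  obtain ⟨a, ha, s, hs, hsv, h⟩ := KRE_reduce hn hΩo hΩc hΩb hsymm hne
  refine ⟨a, ha, s, hs, hsv, fun c hc hPL S hS hSΩ hSv => ?_⟩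
  have hV : 0 ≤ volume.real Ω := measureReal_nonneg
  exact h Ω c hc subset_rfl hΩc hΩo.measurableSet (by linarith) hPL S hS hSΩ hSv

end Pool.Agent.H73.KG
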