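import Pool.Agent.H73.KG.Stmts2

/-!
# KG, module LEX: smooth Lipschitz extension from a convex set, up to `ε`
-/

set_option autoImplicit false

open MeasureTheory Measure Set Filter Topology
open scoped ENNReal NNReal Convolution

namespace Pool.Agent.H73.KG

theorem lex_thm (E : Type) [NormedAddCommGroup E] [InnerProductSpace ℝ E]
    [FiniteDimensional ℝ E] [MeasurableSpace E] [BorelSpace E] : LEXStmt E := by
  intro K g M ε hK hne hg hM hgM hε
  obtain ⟨Mn, rfl⟩ : ∃ Mn : ℝ≥0, (Mn : ℝ) = M := ⟨⟨M, hM⟩, rfl⟩
  have hL : LipschitzOnWith Mn g K :=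
    hK.lipschitzOnWith_of_nnnorm_fderiv_le (𝕜 := ℝ)
      (fun x _ => (hg.differentiable (by simp)).differentiableAt) (fun x hx => hgM x hx)
  obtain ⟨G, hG, hGe⟩ := hL.extend_real
  set δ : ℝ := ε / (Mn + 1) with hδd
  have hδ : 0 < δ := by positivity
  let φ : ContDiffBump (0:E) := ⟨δ / 2, δ, by positivity, by linarith⟩
  have hφr : φ.rOut = δ := rfl
  have hGc : Continuous G := hG.continuous
  have hφc : HasCompactSupport (φ.normed volume) := φ.hasCompactSupport_normed
  have hφs : ContDiff ℝ 1 (φ.normed volume) := φ.contDiff_normed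
  have hint : ∀ x, Integrable (fun t => φ.normed volume t * G (x - t)) := by
    intro x
    refine Continuous.integrable_of_hasCompactSupport ?_ ?_
    · exact hφs.continuous.mul (hGc.comp (continuous_const.sub continuous_id))
    · exact hφc.mul_right
  set f : E → ℝ := (φ.normed volume ⋆[ContinuousLinearMap.lsmul ℝ ℝ, volume] G) with hf
  have hfx : ∀ x, f x = ∫ t, φ.normed volume t * G (x - t) := fun x => rfl
  have hfl : LipschitzWith Mn f := by
    refine LipschitzWith.of_dist_le_mul fun x y => ?_
    rw [Real.dist_eq, hfx, hfx, ← integral_sub (hint x) (hint y)]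
    calc |∫ t, (φ.normed volume t * G (x - t) - φ.normed volume t * G (y - t))|
        ≤ ∫ t, |φ.normed volume t * G (x - t) - φ.normed volume t * G (y - t)| :=
          abs_integral_le_integral_abs
      _ ≤ ∫ t, φ.normed volume t * (Mn * dist x y) := by
          refine integral_mono ((hint x).sub (hint y)).abs
            ((hφs.continuous.integrable_of_hasCompactSupport hφc).mul_const _) fun t => ?_
          have h0 : 0 ≤ φ.normed volume t := φ.nonneg_normed t
          simp only
          rw [← mul_sub, abs_mul, abs_of_nonneg h0]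
          refine mul_le_mul_of_nonneg_left ?_ h0
          have := hG.dist_le_mul (x - t) (y - t)
          rw [Real.dist_eq, dist_sub_right] at this
          exact this
      _ = Mn * dist x y := by
          rw [integral_mul_const, φ.integral_normed, one_mul]
  refine ⟨f, ?_, fun x => ?_, fun x hx => ?_⟩
  · exact hφc.contDiff_convolution_left _ hφs hGc.locallyIntegrable
  · exact norm_fderiv_le_of_lipschitz ℝ hfl
  · rw [hGe hx, ← Real.dist_eq]
    refine φ.dist_normed_convolution_le hGc.aestronglyMeasurable fun y hy => ?_
    refine (hG.dist_le_mul y x).trans ?_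
    have h1 : dist y x ≤ δ := (Metric.mem_ball.1 hy).le
    calc (Mn:ℝ) * dist y x ≤ Mn * δ := by gcongr
      _ ≤ (Mn + 1) * δ := by nlinarith
      _ = ε := by rw [hδd]; field_simp

end Pool.Agent.H73.KG
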